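import Pool.Agent.R250.MC4
import Pool.Agent.U556.GS6
import Pool.Agent.U556.GS7

/-!
# MP_16b0ee_an: the strong Marshall bound under a quadratic mean over the scales, and for gap series

`ψ ∈ Σ`, `h = log ψ'`, `L(R) = log (R² / (R² - 1))`, and `marshall a R h` is the integral of the question.

1. (Quadratic means over the scales.) Let `|z h'(z)| ≤ m(log |z|)` with a continuous function `m`, for example
   the maximum of `|z h'|` on circles, and `Ψ(s) = ∫_s^∞ (v - s) m(v)² dv`. If `4 a Ψ(log R) < L(R)` then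
   `marshall a R h ≤ 1 / (1 - 4 a Ψ(log R) / L(R))`.
2. If `a β² < 1` the integral is bounded uniformly for all `R > 1` and all such `ψ` and `m` with
   `4 Ψ(log R) ≤ β² L(R) + K`. If `(|z|² - 1) |h'(z)| ≤ β` near the circle, this holds; but here only a quadratic
   mean over the scales of the Bloch norm has to be small, it may be large on many scales.
3. (Gap series.) Let `h(z) = ∑ c_k z ^ (-n_k)`, `n_{k+1} ≥ q n_k`, `q > 1`, and let
   `V(R) = ∑ |c_k|² R ^ (-2 n_k)`, the mean of `|h|²` on `|z| = R`. If `a (1 + 8 / (q - 1)) V(R) < L(R)` then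
   `marshall a R h ≤ 1 / (1 - a (1 + 8 / (q - 1)) V(R) / L(R))`.
4. For such a gap series with `q > 2`, `ψ ∈ Σ`, one has `|c_k| ≤ e (1 + 2 / n_k) (q - 1) / (q - 2)`.
5. If `q > 2` and `a (1 + 8 / (q - 1)) (e (1 + 2 / q) (q - 1) / (q - 2))² < log q`, then the integral is bounded
   uniformly for all `R > 1` and all `ψ ∈ Σ` for which `log ψ'` is a gap series of ratio at least `q`.
6. So the full range of the question (also `a = 1`) holds for all `ψ ∈ Σ` for which `log ψ'` is a gap series of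
   ratio at least `2000`.

The proof. The mean `G(s)` of `|exp (conj t h)|` over `|z| = e ^ s` satisfies `G'' ≤ |t|² m² G`, and
`exp (|t|² Ψ)` is a supersolution; the Gaussian mean over `t` gives 1. For gap polynomials
`Ψ = ∑ |c_j c_k| n_j n_k / (n_j + n_k)² e ^ (-(n_j + n_k) s)` is estimated with the Schur test. The second
coefficient of univalent functions gives `|(1 - r²) z h'(z) + 2 r²| ≤ 4 r`, `r = 1 / |z|`; the integral against a
Fejér kernel in `n_k θ` of order `⌊q⌋` isolates `c_k` and keeps the drift `2 r²`; then `r = n_k / (n_k + 1)`.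
-/

set_option autoImplicit false

namespace Pool.Agent.Results.MP_16b0ee_an.BlochMeansOverScales

open MeasureTheory Set

/-- The point `r e ^ {i θ}`. -/
noncomputable def circ (r θ : ℝ) : ℂ := (r : ℂ) * Complex.exp ((θ : ℂ) * Complex.I)

/-- `ψ ∈ Σ` and `h = log ψ'` (the branch vanishing at infinity), exactly as in the problem. -/
def IsSigma (ψ h : ℂ → ℂ) : Prop :=
  DifferentiableOn ℂ ψ {z : ℂ | 1 < ‖z‖} ∧
  Set.InjOn ψ {z : ℂ | 1 < ‖z‖} ∧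
  (∃ b : ℂ, Filter.Tendsto (fun z => ψ z - z) (Bornology.cobounded ℂ) (nhds b)) ∧
  DifferentiableOn ℂ h {z : ℂ | 1 < ‖z‖} ∧
  (∀ z : ℂ, 1 < ‖z‖ → Complex.exp (h z) = deriv ψ z) ∧
  Filter.Tendsto h (Bornology.cobounded ℂ) (nhds 0)

/-- `L(R) = log (R² / (R² - 1))` -/
noncomputable def L (R : ℝ) : ℝ := Real.log (R ^ 2 / (R ^ 2 - 1))

/-- The integral of Q1. -/
noncomputable def marshall (a R : ℝ) (h : ℂ → ℂ) : ℝ :=
  (1 / (2 * Real.pi)) * ∫ θ in (0:ℝ)..(2 * Real.pi), Real.exp (a * ‖h (circ R θ)‖ ^ 2 / L R)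

/-- `m` is continuous on `(0, ∞)`, `v m(v)²` is integrable on `(1, ∞)` and `|z h'(z)| ≤ m(log |z|)` -/
def Majorant (m : ℝ → ℝ) (h : ℂ → ℂ) : Prop :=
  ContinuousOn m (Ioi 0) ∧ IntegrableOn (fun v => v * m v ^ 2) (Ioi 1) ∧
    ∀ z : ℂ, 1 < ‖z‖ → ‖z * deriv h z‖ ≤ m (Real.log ‖z‖)

/-- `Ψ(s) = ∫_s^∞ (v - s) m(v)² dv` -/
noncomputable def Psi (m : ℝ → ℝ) (s : ℝ) : ℝ := ∫ v in Ioi s, (v - s) * m v ^ 2

/-- `h(z) = ∑ c k z ^ (-n k)` for `|z| > 1`, with `n 0 ≥ 1` and `n (k + 1) ≥ q n k` -/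
def GapSeries (q : ℝ) (c : ℕ → ℂ) (n : ℕ → ℕ) (h : ℂ → ℂ) : Prop :=
  1 ≤ n 0 ∧ (∀ k, q * n k ≤ n (k + 1)) ∧ ∀ z : ℂ, 1 < ‖z‖ → HasSum (fun k => c k * z⁻¹ ^ n k) (h z)

/-- the mean square `V(R) = ∑ |c k|² R ^ (-2 n k)` of the gap series on `|z| = R` -/
noncomputable def V (c : ℕ → ℂ) (n : ℕ → ℕ) (R : ℝ) : ℝ := ∑' k, (‖c k‖ * R⁻¹ ^ n k) ^ 2

theorem result :
    -- 1. quadratic means over the scales
    (∀ (a R : ℝ) (m : ℝ → ℝ) (ψ h : ℂ → ℂ), 0 < a → 1 < R → IsSigma ψ h → Majorant m h →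
      4 * a * Psi m (Real.log R) < L R →
        marshall a R h ≤ 1 / (1 - 4 * a * Psi m (Real.log R) / L R)) ∧
    -- 2. the uniform version
    (∀ a β K : ℝ, 0 < a → 0 ≤ K → a * β ^ 2 < 1 → ∃ C : ℝ, ∀ (R : ℝ) (m : ℝ → ℝ) (ψ h : ℂ → ℂ),
      1 < R → IsSigma ψ h → Majorant m h → 4 * Psi m (Real.log R) ≤ β ^ 2 * L R + K →
        marshall a R h ≤ C) ∧
    -- 3. gap series: the reduction to the mean square
    (∀ (a q R : ℝ) (ψ h : ℂ → ℂ) (c : ℕ → ℂ) (n : ℕ → ℕ), 0 < a → 1 < q → 1 < R → IsSigma ψ h →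
      GapSeries q c n h → a * ((1 + 8 / (q - 1)) * V c n R) < L R →
        marshall a R h ≤ 1 / (1 - a * ((1 + 8 / (q - 1)) * V c n R) / L R)) ∧
    -- 4. gap series: the coefficients
    (∀ (q : ℝ) (ψ h : ℂ → ℂ) (c : ℕ → ℂ) (n : ℕ → ℕ), 2 < q → IsSigma ψ h → GapSeries q c n h →
      ∀ k, ‖c k‖ ≤ Real.exp 1 * (1 + 2 / n k) * ((q - 1) / (q - 2))) ∧
    -- 5. gap series: the uniform bound
    (∀ a q : ℝ, 0 < a → 2 < q →
      a * ((1 + 8 / (q - 1)) * (Real.exp 1 * (1 + 2 / q) * ((q - 1) / (q - 2))) ^ 2) < Real.log q →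
      ∃ C : ℝ, ∀ (R : ℝ) (ψ h : ℂ → ℂ) (c : ℕ → ℂ) (n : ℕ → ℕ), 1 < R → IsSigma ψ h →
        GapSeries q c n h → marshall a R h ≤ C) ∧
    -- 6. the full range
    (∀ a : ℝ, 0 < a → a ≤ 1 →
      ∃ C : ℝ, ∀ (R : ℝ) (ψ h : ℂ → ℂ) (c : ℕ → ℂ) (n : ℕ → ℕ), 1 < R → IsSigma ψ h →
        GapSeries 2000 c n h → marshall a R h ≤ C) := by
  have key5 : ∀ a q : ℝ, 0 < a → 2 < q →
      a * ((1 + 8 / (q - 1)) * (Real.exp 1 * (1 + 2 / q) * ((q - 1) / (q - 2))) ^ 2) < Real.log q →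
      ∃ C : ℝ, ∀ (R : ℝ) (ψ h : ℂ → ℂ) (c : ℕ → ℂ) (n : ℕ → ℕ), 1 < R → IsSigma ψ h →
        GapSeries q c n h → marshall a R h ≤ C := by
    intro a q ha hq haq
    obtain ⟨C, hC⟩ := Pool.Agent.U556.GS.gap_uniform ha hq haq
    refine ⟨C, fun R ψ h c n hR hS hG => ?_⟩
    have S : Pool.Agent.R250.MC.IsSig ψ h := hS
    exact hC R _ h c n hR S.hol S.sg ⟨hG.1, hG.2.1, hG.2.2⟩
  refine ⟨?_, ?_, ?_, ?_, key5, ?_⟩
  · intro a R m ψ h ha hR hS hm hlt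
    have S : Pool.Agent.R250.MC.IsSig ψ h := hS
    exact Pool.Agent.U556.GS.square_gen S.hol hR ha hlt
      (Pool.Agent.U556.GS.mom_of_integral S.hol hm.1 hm.2.1 hm.2.2 hR)
  · intro a β K ha hK hβ
    obtain ⟨C, hC⟩ := Pool.Agent.U556.GS.uniform_gen ha hβ hK
    refine ⟨C, fun R m ψ h hR hS hm hle => ?_⟩
    have S : Pool.Agent.R250.MC.IsSig ψ h := hS
    exact hC R _ _ h hR S.hol S.sg hle
      (Pool.Agent.U556.GS.mom_of_integral S.hol hm.1 hm.2.1 hm.2.2 hR)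
  · intro a q R ψ h c n ha hq hR hS hG hlt
    have S : Pool.Agent.R250.MC.IsSig ψ h := hS
    have G : Pool.Agent.U556.GS.Gap q c n h := ⟨hG.1, hG.2.1, hG.2.2⟩
    have hm := Pool.Agent.U556.GS.gap_mom hq G hR
    have e : 4 * a * ((1 / 4 + 2 / (q - 1)) * ∑' k, (‖c k‖ * R⁻¹ ^ n k) ^ 2) =
        a * ((1 + 8 / (q - 1)) * V c n R) := by
      unfold V
      ring
    have h1 := Pool.Agent.U556.GS.square_gen S.hol hR ha (by rw [e]; exact hlt) hm
    rw [e] at h1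
    exact h1
  · intro q ψ h c n hq hS hG k
    have S : Pool.Agent.R250.MC.IsSig ψ h := hS
    have G : Pool.Agent.U556.GS.Gap q c n h := ⟨hG.1, hG.2.1, hG.2.2⟩
    obtain ⟨m, hm⟩ : ∃ m, m = ⌊q⌋₊ := ⟨_, rfl⟩
    obtain ⟨h1, h2, h3⟩ := Pool.Agent.U556.GS.ratio_le hq hm
    refine (Pool.Agent.U556.GS.coeff_le (by linarith) G S.hol S.sg k h1 h2).trans ?_
    exact mul_le_mul_of_nonneg_left h3 (by positivity)
  · intro a ha ha1
    exact key5 a 2000 ha (by norm_num) (Pool.Agent.U556.GS.cond ha ha1 le_rfl)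

end Pool.Agent.Results.MP_16b0ee_an.BlochMeansOverScales
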