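import Pool.Agent.R250.MC4

set_option autoImplicit false

/-!
# MP_16b0ee_an: the strong Marshall bound for decomposable logarithmic derivatives

`ψ ∈ Σ`, `h = log ψ'`. Suppose that outside the unit disc

`z h'(z) = ∑ k_j (P_j(z) - 1) + α z p'(z) / p(z) + z b'(z) + z e'(z)`

with `∑ |k_j| ≤ K`, functions `P_j` of positive real part and value `1` at infinity, `|α| ≤ 1`, a
function `p` of positive real part, a function `b` bounded by `A` and a function `e` with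
`(|z|² - 1) |e'(z)| ≤ ε`. Then for every `0 < a < 1` the integral of the question is bounded uniformly
for all `R > 1` and all such `ψ`, if `ε = (1 - a) / 24` and `K` is at most
`A (R² / (R² - 1)) ^ ((1 - a)² / 20000)`, so `K` is fixed or grows like a power of `1 / (R - 1)`.

The first sum alone covers convex maps and maps of bounded boundary rotation, the first two terms
cover close-to-convex maps (`ψ' = g' p ^ α`, `g` convex), also with complex exponent `α` and with `g` of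
bounded boundary rotation; `b` allows the multiplication of `ψ'` by functions which are bounded above
and below; and `e` is a perturbation of small Bloch norm (small multiples of `log f'`, `f` univalent, for
instance), which is not bounded. So the full range `0 < a < 1` of the question holds for all maps whose
logarithmic derivative is the sum of a small Bloch function and of one of these functions.
-/

namespace Pool.Agent.Results.MP_16b0ee_an.Decompositions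

/-- The point `r e^{iθ}`. -/
noncomputable def circ (r θ : ℝ) : ℂ := (r : ℂ) * Complex.exp ((θ : ℂ) * Complex.I)

/-- `ψ ∈ Σ` and `h = log ψ'` (the branch vanishing at infinity), exactly as in the problem. -/
def IsSigma (ψ h : ℂ → ℂ) : Prop :=
  DifferentiableOn ℂ ψ {z : ℂ | 1 < ‖z‖} ∧
  Set.InjOn ψ {z : ℂ | 1 < ‖z‖} ∧
  (∃ b : ℂ, Filter.Tendsto (fun z => ψ z - z) (Bornology.cobounded ℂ) (nhds b)) ∧
  DifferentiableOn ℂ h {z : ℂ | 1 < ‖z‖} ∧
  (∀ z : ℂ, 1 < ‖z‖ → Complex.exp (h z) = deriv ψ z) ∧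
  Filter.Tendsto h (Bornology.cobounded ℂ) (nhds 0)

/-- The integral of Q1. -/
noncomputable def marshall (a R : ℝ) (h : ℂ → ℂ) : ℝ :=
  (1 / (2 * Real.pi)) * ∫ θ in (0:ℝ)..(2 * Real.pi),
    Real.exp (a * ‖h (circ R θ)‖ ^ 2 / Real.log (R ^ 2 / (R ^ 2 - 1)))

/-- `f` is holomorphic outside the closed unit disc, with the value `c` at infinity. -/
def Hol (f : ℂ → ℂ) (c : ℂ) : Prop :=
  DifferentiableOn ℂ f {z : ℂ | 1 < ‖z‖} ∧ Filter.Tendsto f (Bornology.cobounded ℂ) (nhds c)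

/-- `z h' = ∑ k_j (P_j - 1) + α z p' / p + z b' + z e'` with `∑ |k_j| ≤ K`, `P_j` and `p` of positive real
part, `|α| ≤ 1`, `|b| ≤ A` and `(|z|² - 1) |e'| ≤ ε`. -/
def Decomposable (K A ε : ℝ) (h : ℂ → ℂ) : Prop :=
  ∃ (n : ℕ) (k : Fin n → ℂ) (P : Fin n → ℂ → ℂ) (α c d d' : ℂ) (p b e : ℂ → ℂ),
    ∑ j, ‖k j‖ ≤ K ∧ (∀ j, Hol (P j) 1 ∧ ∀ z : ℂ, 1 < ‖z‖ → 0 < (P j z).re) ∧
    ‖α‖ ≤ 1 ∧ Hol p c ∧ 0 < c.re ∧ (∀ z : ℂ, 1 < ‖z‖ → 0 < (p z).re) ∧
    Hol b d ∧ (∀ z : ℂ, 1 < ‖z‖ → ‖b z‖ ≤ A) ∧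
    Hol e d' ∧ (∀ z : ℂ, 1 < ‖z‖ → (‖z‖ ^ 2 - 1) * ‖deriv e z‖ ≤ ε) ∧
    ∀ z : ℂ, 1 < ‖z‖ → z * deriv h z =
      ∑ j, k j * (P j z - 1) + α * (z * deriv p z / p z) + z * deriv b z + z * deriv e z

theorem result (a A : ℝ) (ha0 : 0 < a) (ha : a < 1) (hA : 0 ≤ A) :
    ∃ C : ℝ, ∀ (R : ℝ) (ψ h : ℂ → ℂ), 1 < R → IsSigma ψ h →
      Decomposable (A * (R ^ 2 / (R ^ 2 - 1)) ^ ((1 - a) ^ 2 / 20000)) A ((1 - a) / 24) h →
      marshall a R h ≤ C := by
  obtain ⟨C, hC⟩ := W677.Mar.main_ext a A ha0 ha hA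
  exact ⟨C, fun R ψ h hR hS hD => hC R ψ h hR hS.1 hS.2.1 hS.2.2.1 hS.2.2.2.1 hS.2.2.2.2.1
    hS.2.2.2.2.2 hD⟩

end Pool.Agent.Results.MP_16b0ee_an.Decompositions
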