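import Pool.Agent.R250.MC4

set_option autoImplicit false

/-!
# MP_16b0ee_an: the strong Marshall bound for values in a disc, and in holomorphic families

`ψ ∈ Σ`, `h = log ψ'`.

1. (Values in a disc.) Let `σ ≥ 0`, `a σ² < 1`, `δ > 0`. The integral of the question is bounded
   uniformly for all `R > 1` and all `ψ ∈ Σ` for which the values of `(|z|² - 1) z h'(z) / |z|`, for
   `1 < |z| < 1 + δ`, lie in a disc of radius `σ` (precisely, `|(|z|² - 1) z h' - c| ≤ σ |z|`), with any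
   centre `c`, which may depend on `ψ`. For all of `Σ` this holds with `c = -2`, `σ = 4`;
   so a disc of radius `1`, anywhere, gives the full range `0 < a < 1` of the question.
2. (Holomorphic families.) Let `ψ_s`, `|s| < 1`, be a family of maps of the class `Σ` which is
   holomorphic in `s`, with `ψ_0(z) = z + b`. (By the lambda lemma these are the maps with
   quasiconformal extensions.) The integral for `ψ_s` is bounded uniformly for all `R > 1`, all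
   families and all `|s| ≤ k`, if `144 a k² < (4 - k²)²`. For `k ≤ 0.324` this is the full range
   `0 < a < 1` of the question.
3. For the members of such a family with `|s| ≤ k ≤ 1` and all complex `t`,
   `∫ |exp (conj t h_s)| dθ ≤ 2 π exp (|t|² (36 k² / (4 - k²)² log (R² / (R² - 1)) + 10))` on `|z| = R`.

The proof: the radial drift `c` is removed by an exponential change of the mean, the rest is a
Riccati inequality for the means; for 2 and 3 the Schwarz lemma is applied in the parameter.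
-/

namespace Pool.Agent.Results.MP_16b0ee_an.DiscsAndHolomorphicFamilies

/-- The point `r e^{iθ}`. -/
noncomputable def circ (r θ : ℝ) : ℂ := (r : ℂ) * Complex.exp ((θ : ℂ) * Complex.I)

/-- `ψ ∈ Σ` and `h = log ψ'` (the branch vanishing at infinity), exactly as in the problem. -/
def IsSigma (ψ h : ℂ → ℂ) : Prop :=
  DifferentiableOn ℂ ψ {z : ℂ | 1 < ‖z‖} ∧
  Set.InjOn ψ {z : ℂ | 1 < ‖z‖} ∧
  (∃ b : ℂ, Filter.Tendsto (fun z => ψ z - z) (Bornology.cobounded ℂ) (nhds b)) ∧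
  DifferentiableOn ℂ h {z : ℂ | 1 < ‖z‖} ∧
  (∀ z : ℂ, 1 < ‖z‖ → Complex.exp (h z) = deriv ψ z) ∧
  Filter.Tendsto h (Bornology.cobounded ℂ) (nhds 0)

/-- The integral of Q1. -/
noncomputable def marshall (a R : ℝ) (h : ℂ → ℂ) : ℝ :=
  (1 / (2 * Real.pi)) * ∫ θ in (0:ℝ)..(2 * Real.pi),
    Real.exp (a * ‖h (circ R θ)‖ ^ 2 / Real.log (R ^ 2 / (R ^ 2 - 1)))

/-- Families of maps in `Σ` (with the logarithms of their derivatives), holomorphic in the parameter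
`s`, `|s| < 1`, and equal to the identity up to a translation for `s = 0`. -/
def IsFamily (ψ h : ℂ → ℂ → ℂ) : Prop :=
  (∀ s : ℂ, ‖s‖ < 1 → IsSigma (ψ s) (h s)) ∧
  (∀ z : ℂ, 1 < ‖z‖ → DifferentiableOn ℂ (fun s => ψ s z) (Metric.ball 0 1)) ∧
  ∃ b : ℂ, ∀ z : ℂ, 1 < ‖z‖ → ψ 0 z = z + b

theorem result :
    (∀ a σ δ : ℝ, 0 < a → 0 ≤ σ → a * σ ^ 2 < 1 → 0 < δ →
      ∃ C : ℝ, ∀ (R : ℝ) (c : ℂ) (ψ h : ℂ → ℂ), 1 < R → IsSigma ψ h →
        (∀ z : ℂ, 1 < ‖z‖ → ‖z‖ < 1 + δ →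
          ‖((‖z‖ ^ 2 - 1 : ℝ) : ℂ) * (z * deriv h z) - c‖ ≤ σ * ‖z‖) → marshall a R h ≤ C) ∧
    (∀ a k : ℝ, 0 < a → 0 ≤ k → k ≤ 1 → 144 * a * k ^ 2 < (4 - k ^ 2) ^ 2 →
      ∃ C : ℝ, ∀ (R : ℝ) (ψ h : ℂ → ℂ → ℂ) (s : ℂ), 1 < R → IsFamily ψ h → ‖s‖ < 1 → ‖s‖ ≤ k →
        marshall a R (h s) ≤ C) ∧
    (∀ (ψ h : ℂ → ℂ → ℂ) (k : ℝ) (s : ℂ), IsFamily ψ h → k ≤ 1 → ‖s‖ < 1 → ‖s‖ ≤ k →
      ∀ (t : ℂ) (R : ℝ), 1 < R →
        ∫ θ in (0 : ℝ)..(2 * Real.pi), Real.exp ((starRingEnd ℂ) t * h s (circ R θ)).re ≤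
          2 * Real.pi * Real.exp (‖t‖ ^ 2 * (36 * k ^ 2 / (4 - k ^ 2) ^ 2 *
            Real.log (R ^ 2 / (R ^ 2 - 1)) + 10))) := by
  refine ⟨fun a σ δ ha hσ haσ hδ => ?_, fun a k ha hk0 hk1 hak => ?_,
    fun ψ h k s hF hk1 hs hsk t R hR => ?_⟩
  · obtain ⟨C, hC⟩ := R250.MC.marshall_disc ha hσ haσ hδ
    refine ⟨C, fun R c ψ h hR hS hd => ?_⟩
    have S : R250.MC.IsSig ψ h := hS
    exact hC R c _ h hR S.hol S.sg hd
  · obtain ⟨C, hC⟩ := R250.MC.fam_marshall ha hk0 hk1 hak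
    refine ⟨C, fun R ψ h s hR hF hs hsk => ?_⟩
    have F : R250.MC.Fam ψ h := hF
    exact hC R ψ h s hR F hs hsk
  · have F : R250.MC.Fam ψ h := hF
    exact R250.MC.fam_moments F hk1 hs hsk t hR

end Pool.Agent.Results.MP_16b0ee_an.DiscsAndHolomorphicFamilies
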