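import Pool.Agent.TH325.SI.Z

set_option autoImplicit false

/-!
# MP_16b0ee_an: the strong Marshall bound under Sobolev, exceptional set and boundary rotation conditions

`ψ ∈ Σ`, `h = log ψ'`, and `marshall a R h` is the integral of the question. Nothing is assumed on the
size of `(|z|² - 1) |h'(z)|` except on the average.

1. (Sobolev bound.) For `0 < a ≤ 1`, `1 < R ≤ 2` and every `ψ ∈ Σ`, `h(z) = ∑ c_n z ^ (-(n+1))`,
   the integral is at most `1 + 24 a ∑ (n+1) ^ a |c_n|² R ^ (-2(n+1))`: a quadratic mean of the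
   fractional derivative of order `a / 2` of `h` controls the exponential square integral.
2. (Exceptional sets.) Let `a β² < 1` and `a + τ < 2`. The integral is bounded, uniformly for all
   `R > 1` and all `ψ ∈ Σ` for which the integral of `|h'|²` over the part of the circle `|z| = r`
   with `(r² - 1) |h'| > β` is at most `K (r - 1) ^ (-τ)` for `1 < r < 2`.
3. (Measure of the exceptional sets.) Let `a β² < 1` and `a < b`. The same holds for all `ψ ∈ Σ` for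
   which the part of the circle `|z| = r` with `(r² - 1) |h'| > β` has measure at most `K (r - 1) ^ b`.
   So for `β ≤ 1` the full range `0 < a < 1` of the question holds if `b ≥ 1`.
4. (Boundary rotation.) Let `0 ≤ κ`, `a + κ < 1`. The integral is bounded, uniformly for all `R > 1`
   and all `ψ ∈ Σ` with `∫ |Re (1 + z ψ'' / ψ')| dθ ≤ K (r - 1) ^ (-κ)` on `|z| = r`, `1 < r < 2`. For
   `κ = 0` this is the full range `0 < a < 1` of the question for the maps of boundary rotation at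
   most `K`, for every `K`; for all `κ > 0` at once it is the full range for the maps whose level
   curves have total curvature `O((r - 1) ^ (-κ))` for every `κ > 0`.

The proof: Goluzin's inequality `|h| ≤ log (|z|² / (|z|² - 1))` and Littlewood-Paley (Hardy-Stein)
identities for the means of `|h| ^ (2k)` lead to an induction over the moments with an exact kernel
inequality.
-/

namespace Pool.Agent.Results.MP_16b0ee_an.SobolevAndRotation

/-- The point `r e^{iθ}`. -/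
noncomputable def circ (r θ : ℝ) : ℂ := (r : ℂ) * Complex.exp ((θ : ℂ) * Complex.I)

/-- `ψ ∈ Σ` and `h = log ψ'` (the branch vanishing at infinity), exactly as in the problem. -/
def IsSigma (ψ h : ℂ → ℂ) : Prop :=
  DifferentiableOn ℂ ψ {z : ℂ | 1 < ‖z‖} ∧
  Set.InjOn ψ {z : ℂ | 1 < ‖z‖} ∧
  (∃ b : ℂ, Filter.Tendsto (fun z => ψ z - z) (Bornology.cobounded ℂ) (nhds b)) ∧
  DifferentiableOn ℂ h {z : ℂ | 1 < ‖z‖} ∧
  (∀ z : ℂ, 1 < ‖z‖ → Complex.exp (h z) = deriv ψ z) ∧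
  Filter.Tendsto h (Bornology.cobounded ℂ) (nhds 0)

/-- The integral of Q1. -/
noncomputable def marshall (a R : ℝ) (h : ℂ → ℂ) : ℝ :=
  (1 / (2 * Real.pi)) * ∫ θ in (0:ℝ)..(2 * Real.pi),
    Real.exp (a * ‖h (circ R θ)‖ ^ 2 / Real.log (R ^ 2 / (R ^ 2 - 1)))

/-- The part of the circle `|z| = r` on which `(r² - 1) |h'| > β`. -/
def exceptional (β r : ℝ) (h : ℂ → ℂ) : Set ℝ :=
  {θ : ℝ | θ ∈ Set.Ioc 0 (2 * Real.pi) ∧ β < (r ^ 2 - 1) * ‖deriv h (circ r θ)‖}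

open MeasureTheory in
theorem result :
    (∀ (a R : ℝ) (ψ h : ℂ → ℂ) (c : ℕ → ℂ), 0 < a → a ≤ 1 → 1 < R → R ≤ 2 → IsSigma ψ h →
      (∀ z : ℂ, 1 < ‖z‖ → HasSum (fun n : ℕ => c n * (z⁻¹) ^ (n + 1)) (h z)) →
      Summable (fun n : ℕ => ((n:ℝ) + 1) ^ a * ‖c n‖ ^ 2 * (R⁻¹) ^ (2 * (n + 1))) ∧
      marshall a R h ≤ 1 + 24 * a * ∑' n : ℕ, ((n:ℝ) + 1) ^ a * ‖c n‖ ^ 2 * (R⁻¹) ^ (2 * (n + 1))) ∧
    (∀ a β τ K : ℝ, 0 < a → 0 ≤ β → a * β ^ 2 < 1 → a + τ < 2 →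
      ∃ C : ℝ, ∀ R : ℝ, 1 < R → ∀ ψ h : ℂ → ℂ, IsSigma ψ h →
        (∀ r : ℝ, 1 < r → r < 2 →
          ∫⁻ θ in exceptional β r h, ENNReal.ofReal (‖deriv h (circ r θ)‖ ^ 2) ≤
            ENNReal.ofReal (K * (r - 1) ^ (-τ))) → marshall a R h ≤ C) ∧
    (∀ a β b K : ℝ, 0 < a → 0 ≤ β → a * β ^ 2 < 1 → a < b →
      ∃ C : ℝ, ∀ R : ℝ, 1 < R → ∀ ψ h : ℂ → ℂ, IsSigma ψ h →
        (∀ r : ℝ, 1 < r → r < 2 →
          volume (exceptional β r h) ≤ ENNReal.ofReal (K * (r - 1) ^ b)) → marshall a R h ≤ C) ∧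
    (∀ a κ K : ℝ, 0 < a → 0 ≤ κ → a + κ < 1 →
      ∃ C : ℝ, ∀ R : ℝ, 1 < R → ∀ ψ h : ℂ → ℂ, IsSigma ψ h →
        (∀ r : ℝ, 1 < r → r < 2 →
          ∫ θ in (0:ℝ)..(2 * Real.pi),
            |(1 + circ r θ * deriv (deriv ψ) (circ r θ) / deriv ψ (circ r θ)).re| ≤
              K * (r - 1) ^ (-κ)) → marshall a R h ≤ C) := by
  refine ⟨fun a R ψ h c ha ha1 hR hR2 hS hc => ?_, fun a β τ K ha hβ h1 h2 => ?_,
    fun a β b K ha hβ h1 h2 => ?_, fun a κ K ha hκ h1 => ?_⟩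
  · exact TH325.SI.thm1 a R ha ha1 hR hR2 ψ h c hS.1 hS.2.1 hS.2.2.1 hS.2.2.2.1 hS.2.2.2.2.1
      hS.2.2.2.2.2 hc
  · obtain ⟨C, hC⟩ := TH325.SI.thm2 a β τ K ha hβ h1 h2
    refine ⟨C, fun R hR ψ h hS he => ?_⟩
    refine hC R hR ψ h hS.1 hS.2.1 hS.2.2.1 hS.2.2.2.1 hS.2.2.2.2.1 hS.2.2.2.2.2 fun r hr1 hr2 => ?_
    rw [TH325.SI.exc_eq]
    exact he r hr1 hr2
  · obtain ⟨C, hC⟩ := TH325.SI.thm3 a β b K ha hβ h1 h2
    refine ⟨C, fun R hR ψ h hS he => ?_⟩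
    exact hC R hR ψ h hS.1 hS.2.1 hS.2.2.1 hS.2.2.2.1 hS.2.2.2.2.1 hS.2.2.2.2.2 fun r hr1 hr2 =>
      he r hr1 hr2
  · obtain ⟨C, hC⟩ := TH325.SI.thm4 a κ K ha hκ h1
    refine ⟨C, fun R hR ψ h hS he => ?_⟩
    exact hC R hR ψ h hS.1 hS.2.1 hS.2.2.1 hS.2.2.2.1 hS.2.2.2.2.1 hS.2.2.2.2.2 fun r hr1 hr2 =>
      he r hr1 hr2

end Pool.Agent.Results.MP_16b0ee_an.SobolevAndRotation
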